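import Pool.Agent.Y6.S.Stm
import Pool.Agent.Y6.S.Conv
import Pool.Agent.Y710.EP.PERT5

/-!
Job SK-PERTV: the inequality of the corrected other modes, from the normal form and the static
estimates.
-/

open Set Filter Topology MeasureTheory

set_option autoImplicit false
set_option linter.all false

namespace Pool.Agent.Y529.SK

open Pool.Agent.Y5.D Pool.Agent.Y5.E
open Pool.Agent.Y5.F (Aq Awq Yk Wk)
open Pool.Agent.Y6.N (lin)
open Pool.Agent.Y5.S2 (Sq6 Rot2 Om Az Dis2 NSol2 Init2 S_DYN6)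
open Pool.Agent.Y710.EP (nm Pg Pl Pu Pm Po ww ee sA sU lc InG InLow InUp Nice nm_nn nm_sq wz_eq
  Yt_eq Wt_eq At_eq Aw_eq ww_sq ww_nn)
open Pool.Agent.Y8.EP (Sq5 GrowE Grow5)
open Pool.Agent.Y6.S

variable {J : Type} {g : J → ℕ}

theorem fin2 (hfin : ∀ m, {j : J | g j = m}.Finite) (G : ℕ) : {j : J | g j / 2 = G}.Finite := by
  refine ((hfin (2 * G)).union (hfin (2 * G + 1))).subset ?_
  intro j hj
  simp only [mem_setOf_eq] at hj
  simp only [mem_union, mem_setOf_eq]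
  omega

theorem tsF {F : Finset J} {G : ℕ} (hF : ∀ j, j ∈ F ↔ g j / 2 = G) {f : Ix J → ℝ}
    (h1 : ∀ n, f (Sum.inl n) = 0) (h2 : ∀ j, g j / 2 ≠ G → f (Sum.inr j) = 0) :
    ∑' i, f i = ∑ j ∈ F, f (Sum.inr j) := by
  rw [← Function.Injective.tsum_eq (Sum.inr_injective (α := ℕ) (β := J))]
  · exact tsum_eq_sum fun j hj => h2 j fun h => hj ((hF j).2 h)
  · intro a ha
    cases a with
    | inl m => exact absurd (h1 m) ha
    | inr j => exact ⟨j, rfl⟩

theorem niceF {F : Finset J} {G : ℕ} (hF : ∀ j, j ∈ F ↔ g j / 2 = G) {f : Ix J → ℝ}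
    (L : ℕ → ℝ)
    (h1 : ∀ n, f (Sum.inl n) = 0) (h2 : ∀ j, g j / 2 ≠ G → f (Sum.inr j) = 0) :
    Nice g L f := by
  show Summable (fun a => L (gr g a) * |f a|)
  refine summable_of_hasFiniteSupport ((F.finite_toSet.image Sum.inr).subset ?_)
  intro a ha
  cases a with
  | inl m =>
    refine absurd ?_ ha
    show L (gr g (Sum.inl m)) * |f (Sum.inl m)| = 0
    rw [h1 m, abs_zero, mul_zero]
  | inr j =>
    refine ⟨j, ?_, rfl⟩
    rw [Finset.mem_coe, hF]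
    by_contra h
    exact ha (by show L (gr g (Sum.inr j)) * |f (Sum.inr j)| = 0; rw [h2 j h, abs_zero, mul_zero])

theorem rtri (F : Finset J) (a b : J → ℝ) :
    |√(∑ j ∈ F, a j ^ 2) - √(∑ j ∈ F, b j ^ 2)| ≤ √(∑ j ∈ F, (a j - b j) ^ 2) := by
  classical
  have hn : ∀ u : J → ℝ, ‖(WithLp.toLp 2 (fun j : F => u j) : EuclideanSpace ℝ F)‖ =
      √(∑ j ∈ F, u j ^ 2) := by
    intro u
    rw [EuclideanSpace.norm_eq, ← Finset.sum_coe_sort F (fun j => u j ^ 2)]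
    congr 1
    refine Finset.sum_congr rfl fun j _ => ?_
    simp
  have h := abs_norm_sub_norm_le (WithLp.toLp 2 (fun j : F => a j) : EuclideanSpace ℝ F)
    (WithLp.toLp 2 (fun j : F => b j) : EuclideanSpace ℝ F)
  rw [hn, hn] at h
  have e : (WithLp.toLp 2 (fun j : F => a j) : EuclideanSpace ℝ F) -
    (WithLp.toLp 2 (fun j : F => b j) : EuclideanSpace ℝ F) =
    (WithLp.toLp 2 (fun j : F => (fun k => a k - b k) (j : J)) : EuclideanSpace ℝ F) := rfl
  rw [e] at h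
  exact h.trans (le_of_eq (hn (fun k => a k - b k)))

theorem ww2 {F : Finset J} {G : ℕ} (hF : ∀ j, j ∈ F ↔ g j / 2 = G) (z : Ix J → ℝ) :
    ww g z (2 * G) ^ 2 + ww g z (2 * G + 1) ^ 2 = ∑ j ∈ F, z (Sum.inr j) ^ 2 := by
  have h : ∀ n, n / 2 = G → ww g z n ^ 2 = ∑ j ∈ F, if g j = n then z (Sum.inr j) ^ 2 else 0 := by
    intro n hn
    rw [ww_sq]
    refine tsum_eq_sum fun j hj => ?_
    rw [hF] at hj
    rw [if_neg]
    rintro rfl
    exact hj hn
  rw [h (2 * G) (by omega), h (2 * G + 1) (by omega), ← Finset.sum_add_distrib]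
  refine Finset.sum_congr rfl fun j hj => ?_
  rw [hF] at hj
  rcases (show g j = 2 * G ∨ g j = 2 * G + 1 by omega) with h | h
  · rw [if_pos h, if_neg (by omega), add_zero]
  · rw [if_neg (by omega), if_pos h, zero_add]

/-! ### The quantities -/

section
variable {κ μ lam Λ M : ℝ} {L C ℓ : ℕ → ℝ} {B : ℕ → ℕ → ℝ}

theorem sY (hs : Sq5 κ μ lam Λ M L C ℓ B) {z : Ix J → ℝ → ℝ} {t : ℝ}
    (hz : Nice g L (fun a => z a t)) (m : ℕ) :
    √(Yt (fun n => z (Sum.inl n)) (wz g z) m t) = nm (Pu g m (fun a => z a t)) := by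
  rw [Yt_eq hs hz, Real.sqrt_sq (nm_nn _)]

theorem sW (hs : Sq5 κ μ lam Λ M L C ℓ B) {z : Ix J → ℝ → ℝ} {t : ℝ}
    (hz : Nice g L (fun a => z a t)) (m : ℕ) :
    √(Wt (wz g z) m t) = nm (Pu g m (Po (fun a => z a t))) := by
  rw [Wt_eq hs hz, Real.sqrt_sq (nm_nn _)]

theorem ee_eq (z : Ix J → ℝ → ℝ) (t : ℝ) :
    (fun p => |z (Sum.inl p) t| + wz g z p t) = ee g (fun a => z a t) := by
  funext p
  rw [wz_eq]
  rfl

theorem T_eq (hs : Sq5 κ μ lam Λ M L C ℓ B) {z : Ix J → ℝ → ℝ} {t : ℝ}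
    (hz : Nice g L (fun a => z a t)) (m : ℕ) :
    Tq κ (Λ / lam) L (fun n => z (Sum.inl n)) (wz g z) m t =
      TS κ (Λ / lam) L g (fun a => z a t) m := by
  unfold Tq TS
  rw [sY hs hz, At_eq, ee_eq]

theorem TT_eq (hs : Sq5 κ μ lam Λ M L C ℓ B) {z : Ix J → ℝ → ℝ} {t : ℝ}
    (hz : Nice g L (fun a => z a t)) (m : ℕ) :
    TTq κ (Λ / lam) L (fun n => z (Sum.inl n)) (wz g z) m t =
      TTS κ (Λ / lam) L g (fun a => z a t) m := by
  unfold TTq TTS
  congr 1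
  exact tsum_congr fun k => by rw [T_eq hs hz]

theorem AT_eq (hs : Sq5 κ μ lam Λ M L C ℓ B) {z : Ix J → ℝ → ℝ} {t : ℝ}
    (hz : Nice g L (fun a => z a t)) (m : ℕ) :
    ATq κ (Λ / lam) L (fun n => z (Sum.inl n)) (wz g z) m t =
      sA (Λ / lam) (TS κ (Λ / lam) L g (fun a => z a t)) m := by
  unfold ATq sA
  exact Finset.sum_congr rfl fun p _ => by rw [T_eq hs hz]

theorem R_eq (hs : Sq5 κ μ lam Λ M L C ℓ B) {z : Ix J → ℝ → ℝ} {t : ℝ}
    (hz : Nice g L (fun a => z a t)) (m : ℕ) :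
    Rq κ (Λ / lam) L (fun n => z (Sum.inl n)) (wz g z) m t =
      RS κ (Λ / lam) L g (fun a => z a t) m := by
  unfold Rq RS
  rw [sY hs hz, At_eq, ee_eq, TT_eq hs hz, AT_eq hs hz]
  have e : (fun p => Tq κ (Λ / lam) L (fun n => z (Sum.inl n)) (wz g z) p t) =
      TS κ (Λ / lam) L g (fun a => z a t) := funext fun p => T_eq hs hz p
  rw [e]

theorem WS_eq (hs : Sq5 κ μ lam Λ M L C ℓ B) {z : Ix J → ℝ → ℝ} {t : ℝ}
    (hz : Nice g L (fun a => z a t)) (G : ℕ) :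
    L (2 * G) * (Awq (Λ / lam) (wz g z) (2 * G) t + √(Wt (wz g z) (2 * G) t)) *
        √(Wt (wz g z) (2 * G) t) + (if G = 0 then 0 else
          L (2 * G - 1) * Awq (Λ / lam) (wz g z) (2 * G) t * wz g z (2 * G - 1) t) =
      WS (Λ / lam) L g (fun a => z a t) (2 * G) := by
  unfold WS
  rw [sW hs hz, Aw_eq, wz_eq]
  by_cases h : G = 0
  · subst h
    simp
  · rw [if_neg h, if_neg (by omega)]

end

theorem t_PERTVA : Pool.Agent.Y6.S.S_PERTVA := by
  intro h65 hRAP _ hNF hWT hEST J g σ τ κ μ lam Λ M a D₁ L C ℓ B D c hK hs6 hrot hdis ha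
  obtain ⟨N₂, hN1, hE⟩ := hEST J g σ τ κ μ lam Λ M a D₁ L C ℓ B D c hK hs6 hrot hdis ha
  obtain ⟨ℓ', hs⟩ := h65 κ μ lam Λ M L C ℓ B hs6
  obtain ⟨r1, r2, r3, -⟩ := hRAP J g σ τ κ μ lam Λ M a D₁ L C ℓ B D c hK hs6 hrot hdis
  refine ⟨N₂, hN1, ?_⟩
  rintro Q T z x w v hQ hz rfl rfl rfl
  have hQ0 : 0 < Q := lt_of_lt_of_le one_pos hQ
  have hRp : ∀ t ∈ Ico 0 T, Rp g L (fun b => z b t) := fun t ht =>
    r2 T z (r3 T Q z hz) t ht
  have hN : ∀ t ∈ Ico 0 T, Nice g L (fun b => z b t) := fun t ht => r1 _ (hRp t ht)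
  -- support of the corrected modes
  have v1 : ∀ G (y : Ix J → ℝ) n, vv g σ τ D c (Om Q κ L) G y (Sum.inl n) = 0 := fun _ _ _ => rfl
  have v2 : ∀ G (y : Ix J → ℝ) j, g j / 2 ≠ G → vv g σ τ D c (Om Q κ L) G y (Sum.inr j) = 0 := by
    intro G y j hj
    show w1 G (g j / 2) * _ = 0
    unfold w1
    rw [if_neg hj, zero_mul]
  have v3 : ∀ G (y : Ix J → ℝ), wt g (w1 G) (vv g σ τ D c (Om Q κ L) G y) =
      vv g σ τ D c (Om Q κ L) G y := by
    intro G y
    funext i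
    cases i with
    | inl n => rfl
    | inr j =>
      show w1 G (g j / 2) * vv g σ τ D c (Om Q κ L) G y (Sum.inr j) = _
      by_cases h : g j / 2 = G
      · unfold w1
        rw [if_pos h, one_mul]
      · rw [v2 G y j h, mul_zero]
  have hder : ∀ G, ∀ t ∈ Ico 0 T, HasDerivWithinAt
      (fun s => nm (vv g σ τ D c (Om Q κ L) G (fun b => z b s)) ^ 2)
      (2 * ∑' i, vv g σ τ D c (Om Q κ L) G (fun b => z b t) i *
        ff g σ τ D c (Om Q κ L) G (fun b => z b t) i) (Ico 0 T) t := by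
    intro G t ht
    obtain ⟨F, hF⟩ : ∃ F : Finset J, ∀ j, j ∈ F ↔ g j / 2 = G :=
      ⟨(fin2 hK.fin G).toFinset, fun j => by simp⟩
    have e1 : (fun s => nm (vv g σ τ D c (Om Q κ L) G (fun b => z b s)) ^ 2) =
        fun s => ∑ j ∈ F, vv g σ τ D c (Om Q κ L) G (fun b => z b s) (Sum.inr j) ^ 2 := by
      funext s
      rw [nm_sq]
      refine tsF hF (fun n => ?_) (fun j hj => ?_)
      · rw [v1]; norm_num
      · rw [v2 _ _ _ hj]; norm_num
    rw [e1]
    have h1 : HasDerivWithinAt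
        (fun s => ∑ j ∈ F, vv g σ τ D c (Om Q κ L) G (fun b => z b s) (Sum.inr j) ^ 2)
        (∑ j ∈ F, 2 * vv g σ τ D c (Om Q κ L) G (fun b => z b t) (Sum.inr j) *
          (Om Q κ L G * rt σ τ (vv g σ τ D c (Om Q κ L) G (fun b => z b t)) (Sum.inr j)
            + ff g σ τ D c (Om Q κ L) G (fun b => z b t) (Sum.inr j))) (Ico 0 T) t := by
      refine HasDerivWithinAt.fun_sum fun j _ => ?_
      have h2 := (hNF J g σ τ κ μ lam Λ M a D₁ L C ℓ B D c hK hs6 hrot hdis Q T z hQ0 hz G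
        (Sum.inr j) t ht).pow 2
      refine h2.congr_deriv ?_
      norm_num
    refine h1.congr_deriv ?_
    have h3 : ∑' i, vv g σ τ D c (Om Q κ L) G (fun b => z b t) i *
        rt σ τ (vv g σ τ D c (Om Q κ L) G (fun b => z b t)) i = 0 := by
      have h4 := (hWT J g σ τ κ μ lam Λ M L C ℓ B c hK hs6 hrot
        (vv g σ τ D c (Om Q κ L) G (fun b => z b t)) (niceF hF L (v1 G _) (v2 G _))).2.2.2.2.2 G
      rwa [v3] at h4
    rw [tsF hF (f := fun i => vv g σ τ D c (Om Q κ L) G (fun b => z b t) i *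
        rt σ τ (vv g σ τ D c (Om Q κ L) G (fun b => z b t)) i)
      (fun n => by rw [v1, zero_mul]) (fun j hj => by rw [v2 _ _ _ hj, zero_mul])] at h3
    rw [tsF hF (f := fun i => vv g σ τ D c (Om Q κ L) G (fun b => z b t) i *
        ff g σ τ D c (Om Q κ L) G (fun b => z b t) i)
      (fun n => by rw [v1, zero_mul]) (fun j hj => by rw [v2 _ _ _ hj, zero_mul])]
    have e2 : ∀ j, 2 * vv g σ τ D c (Om Q κ L) G (fun b => z b t) (Sum.inr j) *
          (Om Q κ L G * rt σ τ (vv g σ τ D c (Om Q κ L) G (fun b => z b t)) (Sum.inr j)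
            + ff g σ τ D c (Om Q κ L) G (fun b => z b t) (Sum.inr j)) =
        2 * Om Q κ L G * (vv g σ τ D c (Om Q κ L) G (fun b => z b t) (Sum.inr j) *
          rt σ τ (vv g σ τ D c (Om Q κ L) G (fun b => z b t)) (Sum.inr j)) +
        2 * (vv g σ τ D c (Om Q κ L) G (fun b => z b t) (Sum.inr j) *
          ff g σ τ D c (Om Q κ L) G (fun b => z b t) (Sum.inr j)) := fun j => by ring
    rw [Finset.sum_congr rfl fun j _ => e2 j, Finset.sum_add_distrib, ← Finset.mul_sum,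
      ← Finset.mul_sum, h3, mul_zero, zero_add]
  refine ⟨fun G => ?_, fun G t ht => ?_, fun G t ht => ?_⟩
  · have h1 : ContinuousOn (fun s => nm (vv g σ τ D c (Om Q κ L) G (fun b => z b s)) ^ 2)
        (Ico 0 T) := fun t ht => (hder G t ht).continuousWithinAt
    refine (Real.continuous_sqrt.comp_continuousOn h1).congr fun t ht => ?_
    exact (Real.sqrt_sq (nm_nn _)).symm
  · obtain ⟨F, hF⟩ : ∃ F : Finset J, ∀ j, j ∈ F ↔ g j / 2 = G :=
      ⟨(fin2 hK.fin G).toFinset, fun j => by simp⟩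
    have h1 := (hE Q G (fun b => z b t) hQ (hRp t ht)).1
    rw [T_eq hs (hN t ht)]
    refine le_trans ?_ h1
    show |√(wz g z (2 * G) t ^ 2 + wz g z (2 * G + 1) t ^ 2) -
      nm (vv g σ τ D c (Om Q κ L) G (fun b => z b t))| ≤ _
    rw [wz_eq, wz_eq, ww2 hF]
    unfold nm
    rw [tsF hF (f := fun i => vv g σ τ D c (Om Q κ L) G (fun b => z b t) i ^ 2)
      (fun n => by rw [v1]; norm_num) (fun j hj => by rw [v2 _ _ _ hj]; norm_num),
      tsF hF (f := fun i => (wt g (w1 G) (fun b => z b t) i -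
        vv g σ τ D c (Om Q κ L) G (fun b => z b t) i) ^ 2)
      (fun n => by rw [v1]; show ((0 : ℝ) - 0) ^ 2 = 0; norm_num) (fun j hj => by
        rw [v2 _ _ _ hj]
        show (w1 G (g j / 2) * _ - 0) ^ 2 = 0
        unfold w1
        rw [if_neg hj]
        norm_num)]
    refine (rtri F (fun j => z (Sum.inr j) t)
      (fun j => vv g σ τ D c (Om Q κ L) G (fun b => z b t) (Sum.inr j))).trans (le_of_eq ?_)
    congr 1
    refine Finset.sum_congr rfl fun j hj => ?_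
    rw [hF] at hj
    show _ = (w1 G (g j / 2) * z (Sum.inr j) t - _) ^ 2
    unfold w1
    rw [if_pos hj, one_mul]
  · refine ⟨_, hder G t ht, ?_⟩
    have h2 := (hE Q G (fun b => z b t) hQ (hRp t ht)).2
    rw [sY hs (hN t ht), At_eq, R_eq hs (hN t ht), WS_eq hs (hN t ht)]
    have h3 := mul_le_mul_of_nonneg_left h2 (zero_le_two (α := ℝ))
    refine h3.trans (le_of_eq ?_)
    ring

end Pool.Agent.Y529.SK
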